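import Pool.Agent.Helper23.MC.Goals4

/-!
# Project MC (MP_69be96_nt): packet NU
-/

set_option autoImplicit false

namespace Pool.Agent.Helper86.MC

open Finset
open Pool.Agent.Helper23.MC
open Pool.Agent.Helper88.PP (SS ee Sf)

theorem ss_pos {z X s : ℕ} (h : s ∈ SS z X) : 1 ≤ s := by
  classical
  rw [SS, mem_filter, mem_Ico] at h
  exact h.1.1

theorem ss_mono {z X Y s : ℕ} (h : s ∈ SS z X) (hXY : X ≤ Y) : s ∈ SS z Y := by
  classical
  rw [SS, mem_filter, mem_Ico] at h ⊢
  exact ⟨⟨h.1.1, h.1.2.trans_le hXY⟩, h.2⟩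

theorem fac_nonneg (z s : ℕ) (E β : ℕ) : 0 ≤ 1 / ((Nat.totient s : ℝ) * (E + β * ee z s)) := by
  positivity

theorem kH_nonneg (E z β : ℕ) (H : Finset ℕ) (s : H → ℕ) : 0 ≤ kH E z β H s :=
  Finset.prod_nonneg fun _ _ => fac_nonneg _ _ _ _

theorem term_eq (E z β : ℕ) (H : Finset ℕ) (s : H → ℕ) (hs : ∀ i, 1 ≤ s i) :
    kH E z β H s ^ 2 * ∏ i : H, (Nat.totient (s i) : ℝ) =
      ∏ i : H, 1 / ((Nat.totient (s i) : ℝ) * (E + β * ee z (s i)) ^ 2) := by
  unfold kH
  rw [← Finset.prod_pow, ← Finset.prod_mul_distrib]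
  refine Finset.prod_congr rfl fun i _ => ?_
  have h1 : (0 : ℝ) < Nat.totient (s i) := by
    exact_mod_cast Nat.totient_pos.2 (hs i)
  rw [one_div, one_div, mul_inv, mul_inv, mul_pow, inv_pow, inv_pow]
  have h2 : ((Nat.totient (s i) : ℝ) ^ 2)⁻¹ * (Nat.totient (s i) : ℝ) =
      (Nat.totient (s i) : ℝ)⁻¹ := by
    field_simp
  linear_combination ((((E : ℝ) + β * ee z (s i)) ^ 2)⁻¹) * h2

theorem nu : StmtNU := by
  classical
  intro E z β hE hz hβ H hH
  have hE0 : (0 : ℝ) < E := by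
    have : 0 < E := by omega
    exact_mod_cast this
  have hmem : ∀ s, s ∈ TH E z H ↔ (∀ i, s i ∈ SS z (z ^ (E / 64))) ∧ ∑ i, ee z (s i) ≤ E / 32 := by
    intro s
    rw [TH, mem_filter, Fintype.mem_piFinset]
  refine ⟨⟨fun s hs i => ?_, fun s hs => ?_, fun s hs => ?_⟩, ?_, ?_⟩
  · exact ss_mono (((hmem s).1 hs).1 i) (Nat.pow_le_pow_right (by omega) (by omega))
  · calc ∏ i, s i ≤ ∏ i, z ^ ee z (s i) :=
          Finset.prod_le_prod' fun i _ => (Nat.lt_pow_succ_log_self (by omega) (s i)).le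
      _ = z ^ ∑ i, ee z (s i) := Finset.prod_pow_eq_pow_sum _ _ _
      _ ≤ z ^ (E / 32) := Nat.pow_le_pow_right (by omega) ((hmem s).1 hs).2
  · rw [abs_of_nonneg (kH_nonneg E z β H s), one_mul]
    unfold kH
    refine Finset.prod_le_prod (fun i _ => fac_nonneg _ _ _ _) fun i _ => ?_
    have h1 : (0 : ℝ) < Nat.totient (s i) := by
      exact_mod_cast Nat.totient_pos.2 (ss_pos (((hmem s).1 hs).1 i))
    apply one_div_le_one_div_of_le (by positivity)
    rw [mul_comm]
    refine mul_le_mul_of_nonneg_left ?_ h1.le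
    have h2 : (0 : ℝ) ≤ β * ee z (s i) := by positivity
    linarith
  · have h1 : (fun _ : H => 1) ∈ TH E z H := by
      rw [hmem]
      refine ⟨fun i => ?_, ?_⟩
      · rw [SS, mem_filter, mem_Ico]
        refine ⟨⟨le_rfl, Nat.one_lt_pow (by omega) (by omega)⟩, squarefree_one, ?_⟩
        intro p hp hp1
        exact absurd (Nat.dvd_one.1 hp1) hp.one_lt.ne'
      · have : ee z 1 = 1 := by simp [ee]
        simp only [this, Finset.sum_const, Finset.card_univ, Fintype.card_coe, smul_eq_mul, mul_one]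
        exact hH
    unfold NH
    refine le_trans ?_ (Finset.single_le_sum (f := fun s : H → ℕ =>
      kH E z β H s ^ 2 * ∏ i : H, (Nat.totient (s i) : ℝ)) (fun s _ => by positivity) h1)
    show _ ≤ kH E z β H (fun _ => 1) ^ 2 * ∏ i : H, (Nat.totient ((fun _ : H => 1) i) : ℝ)
    rw [term_eq E z β H (fun _ => 1) fun _ => le_rfl]
    have h2 : ee z 1 = 1 := by simp [ee]
    simp only [h2, Nat.totient_one, Nat.cast_one, one_mul, mul_one, Finset.prod_const,
      Finset.card_univ, Fintype.card_coe]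
    rw [pow_mul, ← one_div_pow]
    apply pow_le_pow_left₀ (by positivity)
    apply one_div_le_one_div_of_le (by positivity)
    apply pow_le_pow_left₀ (by positivity)
    have h3 : (β : ℝ) ≤ E := by exact_mod_cast hβ
    linarith
  · have h1 : (∑ s ∈ SS z (z ^ (E / 64)), 1 / ((Nat.totient s : ℝ) * (E + β * ee z s) ^ 2)) ^ H.card =
        ∑ s ∈ Fintype.piFinset (fun _ : H => SS z (z ^ (E / 64))),
          ∏ i : H, 1 / ((Nat.totient (s i) : ℝ) * (E + β * ee z (s i)) ^ 2) := by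
      rw [← Fintype.card_coe H, ← Finset.card_univ, ← Finset.prod_const]
      exact Finset.prod_univ_sum (fun _ : H => SS z (z ^ (E / 64)))
        (fun _ s => 1 / ((Nat.totient s : ℝ) * (E + β * ee z s) ^ 2))
    rw [h1]
    unfold NH
    rw [Finset.sum_congr rfl fun s hs => term_eq E z β H s fun i => ss_pos (((hmem s).1 hs).1 i)]
    exact Finset.sum_le_sum_of_subset_of_nonneg (Finset.filter_subset _ _)
      fun s _ _ => Finset.prod_nonneg fun i _ => by positivity

end Pool.Agent.Helper86.MC
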